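import Pool.Agent.Q280.QPf

set_option autoImplicit false

namespace Pool.Agent.Results.MP_f5e7e2_co.AlSalamCarlitzPfaffians

open Finset
open Pool.Agent.Q280.Pf Pool.Agent.Q280.PfL Pool.Agent.Q280.PfBand

/-- The Pfaffian of a `2n × 2n` matrix (for skew-symmetric matrices):
`1/(2^n n!) ∑_σ sgn(σ) ∏_{k=1}^n a_{σ(2k-1) σ(2k)}`; the indices `1, ..., 2n` are shifted to
`0, ..., 2n-1`. -/
noncomputable def pf {K : Type*} [CommRing K] [Algebra ℚ K] {n : ℕ}
    (A : Matrix (Fin (2 * n)) (Fin (2 * n)) K) : K :=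
  (1 / (2 ^ n * (n.factorial : ℚ)) : ℚ) • ∑ σ : Equiv.Perm (Fin (2 * n)),
    ((Equiv.Perm.sign σ : ℤ) : K) * ∏ i : Fin n,
      A (σ ⟨2 * (i : ℕ), by have := i.isLt; omega⟩) (σ ⟨2 * (i : ℕ) + 1, by have := i.isLt; omega⟩)

variable {R : Type*} [CommRing R]

/-- `(q;q)_m = ∏_{i=1}^m (1 - q^i)` -/
def qpoch (q : R) (m : ℕ) : R := ∏ i ∈ range m, (1 - q ^ (i + 1))

/-- Gaussian binomial coefficients, defined for `q` in any commutative ring by the q-Pascal rule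
(`result` contains the quotient formula) -/
def gauss (q : R) : ℕ → ℕ → R
  | _, 0 => 1
  | 0, (_ + 1) => 0
  | (n + 1), (k + 1) => gauss q n k + q ^ (k + 1) * gauss q n (k + 1)

/-- `g_r = ∑_j [r, j]_q a^j` for integers `r`, with `g_r = 0` for `r < 0` -/
def g (a q : R) (r : ℤ) : R := if r < 0 then 0 else ∑ j ∈ range (r.toNat + 1), gauss q r.toNat j * a ^ j

/-- `x_i = q^{i-1}` -/
def x (q : R) (i : ℕ) : R := q ^ (i - 1)

/-- the matrix `((x_i - x_j) g_{i+j-s})_{1 ≤ i, j ≤ 2n}` -/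
def mat (a q : R) (s n : ℕ) : Matrix (Fin (2 * n)) (Fin (2 * n)) R := fun i j =>
  (x q ((i : ℕ) + 1) - x q ((j : ℕ) + 1)) * g a q ((((i : ℕ) + 1 : ℕ) : ℤ) + (((j : ℕ) + 1 : ℕ) : ℤ) - (s : ℤ))

/-- `e(n)`, with `m = ⌊n/2⌋` -/
def e (n : ℕ) : ℤ :=
  ((n / 2 : ℕ) : ℤ) * (16 * ((n / 2 : ℕ) : ℤ) ^ 2 - 1) / 3 - (-1) ^ n * (4 * ((n / 2 : ℕ) : ℤ) ^ 2)

/-- `c_k = ⌊(n-2k)²/2⌋` -/
def c (n k : ℕ) : ℕ := ((((n : ℤ) - 2 * (k : ℤ)) ^ 2) / 2).toNat

/-- `P_n = ∏_{k=1}^n (q;q)_{2k-1}` -/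
def Pn (q : R) (n : ℕ) : R := ∏ k ∈ Icc 1 n, qpoch q (2 * k - 1)

theorem gauss_eq (q : R) : ∀ n k, gauss q n k = Pool.Agent.Q280.QPf.gauss q n k := by
  intro n
  induction n with
  | zero =>
    intro k
    rcases k with _ | k
    · rw [gauss, Pool.Agent.Q280.QPf.gauss]
    · rw [gauss, Pool.Agent.Q280.QPf.gauss]
  | succ n ih =>
    intro k
    rcases k with _ | k
    · rw [gauss, Pool.Agent.Q280.QPf.gauss]
    · rw [gauss, Pool.Agent.Q280.QPf.gauss, ih, ih]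

theorem qpoch_eq (q : R) (m : ℕ) : qpoch q m = Pool.Agent.Q280.QPf.qpoch q m := rfl

theorem g_eq (a q : R) (r : ℕ) : g a q (r : ℤ) = Pool.Agent.Q280.QPf.g a q r := by
  unfold g Pool.Agent.Q280.QPf.g
  rw [if_neg (by omega)]
  simp only [Int.toNat_natCast]
  refine Finset.sum_congr rfl fun j _ => ?_
  rw [gauss_eq]

theorem pf_eq {K : Type*} [CommRing K] [Algebra ℚ K] {n : ℕ} (A : Matrix (Fin (2 * n)) (Fin (2 * n)) K) :
    pf A = (1 / (2 ^ n * (n.factorial : ℚ)) : ℚ) • P (A.submatrix (eqv n) (eqv n)) := by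
  unfold pf P
  congr 1
  rw [← Equiv.sum_comp (eqv n).permCongr]
  refine Finset.sum_congr rfl fun τ _ => ?_
  rw [Equiv.Perm.sign_permCongr]
  congr 1
  refine Finset.prod_congr rfl fun i _ => ?_
  have e0 : (⟨2 * (i : ℕ), by have := i.isLt; omega⟩ : Fin (2 * n)) = eqv n (i, 0) := by
    apply Fin.ext; rw [eqv_val]; simp [idx]
  have e1 : (⟨2 * (i : ℕ) + 1, by have := i.isLt; omega⟩ : Fin (2 * n)) = eqv n (i, 1) := by
    apply Fin.ext; rw [eqv_val]; simp [idx]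
  rw [e0, e1]
  simp [Equiv.permCongr_apply, Matrix.submatrix_apply]

theorem pf_of_P {K : Type*} [CommRing K] [Algebra ℚ K] {n : ℕ}
    (A : Matrix (Fin (2 * n)) (Fin (2 * n)) K) (v : K)
    (h : P (A.submatrix (eqv n) (eqv n)) = 2 ^ n * (n.factorial : K) * v) : pf A = v := by
  rw [pf_eq, h]
  have h1 : (2 : K) ^ n * (n.factorial : K) * v = ((2 ^ n * (n.factorial : ℚ)) : ℚ) • v := by
    rw [Algebra.smul_def]; simp only [map_mul, map_pow, map_ofNat, map_natCast]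
  rw [h1, smul_smul]
  have h2 : (1 / (2 ^ n * (n.factorial : ℚ)) : ℚ) * (2 ^ n * (n.factorial : ℚ)) = 1 := by
    have : (2 ^ n * (n.factorial : ℚ)) ≠ 0 := by positivity
    field_simp
  rw [h2, one_smul]

theorem sub3 (a q : R) (n : ℕ) : (mat a q 3 n).submatrix (eqv n) (eqv n) =
    fun c d : Fin n × Fin 2 => (q ^ idx c - q ^ idx d) * Pool.Agent.Q280.QPf.g1 a q (idx c + idx d) := by
  ext c d
  simp only [Matrix.submatrix_apply, mat, eqv_val, x, Nat.add_sub_cancel]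
  congr 1
  unfold Pool.Agent.Q280.QPf.g1
  split_ifs with h
  · have h1 : (((idx c + 1 : ℕ) : ℤ) + ((idx d + 1 : ℕ) : ℤ) - ((3 : ℕ) : ℤ)) = -1 := by
      push_cast; omega
    rw [h1, g, if_pos (by norm_num)]
  · have h1 : (((idx c + 1 : ℕ) : ℤ) + ((idx d + 1 : ℕ) : ℤ) - ((3 : ℕ) : ℤ)) =
        ((idx c + idx d - 1 : ℕ) : ℤ) := by
      omega
    rw [h1, g_eq]

theorem sub2 (a q : R) (n : ℕ) : (mat a q 2 n).submatrix (eqv n) (eqv n) =
    fun c d : Fin n × Fin 2 => (q ^ idx c - q ^ idx d) * Pool.Agent.Q280.QPf.g a q (idx c + idx d) := by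
  ext c d
  simp only [Matrix.submatrix_apply, mat, eqv_val, x, Nat.add_sub_cancel]
  congr 1
  have h1 : (((idx c + 1 : ℕ) : ℤ) + ((idx d + 1 : ℕ) : ℤ) - ((2 : ℕ) : ℤ)) =
        ((idx c + idx d : ℕ) : ℤ) := by
      push_cast; omega
  rw [h1, g_eq]

/-- `∑_{k<n} k(2k-1)` -/
def s (n : ℕ) : ℕ := ∑ k ∈ range n, (2 * k) * (2 * k - 1) / 2

theorem s_succ (n : ℕ) : s (n + 1) = s n + (2 * n) * (2 * n - 1) / 2 := by
  unfold s; rw [Finset.sum_range_succ]

theorem half (n : ℕ) : 2 * ((2 * n) * (2 * n - 1) / 2) = (2 * n) * (2 * n - 1) := by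
  rw [mul_assoc, Nat.mul_div_cancel_left _ (by norm_num)]

theorem s_closed (n : ℕ) : 6 * (s n : ℤ) = (n : ℤ) * ((n : ℤ) - 1) * (4 * (n : ℤ) - 5) := by
  induction n with
  | zero => simp [s]
  | succ n ih =>
    rw [s_succ]
    have h := half n
    have h' : (2 : ℤ) * (((2 * n) * (2 * n - 1) / 2 : ℕ) : ℤ) = 2 * (n : ℤ) * (2 * (n : ℤ) - 1) := by
      rcases n with _ | n
      · simp
      · rw [show 2 * (n + 1) - 1 = 2 * n + 1 by omega] at h ⊢
        have : ((2 * (2 * (n + 1) * (2 * n + 1) / 2) : ℕ) : ℤ) = ((2 * (n + 1) * (2 * n + 1) : ℕ) : ℤ) := by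
          rw [h]
        push_cast at this ⊢
        linear_combination this
    push_cast at h' ih ⊢
    linear_combination ih + 3 * h'

theorem three_e (n : ℕ) : 3 * e n = ((n / 2 : ℕ) : ℤ) * (16 * ((n / 2 : ℕ) : ℤ) ^ 2 - 1) -
    (-1) ^ n * (12 * ((n / 2 : ℕ) : ℤ) ^ 2) := by
  unfold e
  set m : ℤ := ((n / 2 : ℕ) : ℤ)
  have h : (3 : ℤ) ∣ m * (16 * m ^ 2 - 1) := by
    have h3 : m % 3 = 0 ∨ m % 3 = 1 ∨ m % 3 = 2 := by omega
    rcases h3 with h3 | h3 | h3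
    · exact Dvd.dvd.mul_right (Int.dvd_of_emod_eq_zero h3) _
    · obtain ⟨t, ht⟩ : ∃ t, m = 3 * t + 1 := ⟨m / 3, by omega⟩
      rw [ht]; exact ⟨(3 * t + 1) * (48 * t ^ 2 + 32 * t + 5), by ring⟩
    · obtain ⟨t, ht⟩ : ∃ t, m = 3 * t + 2 := ⟨m / 3, by omega⟩
      rw [ht]; exact ⟨(3 * t + 2) * (48 * t ^ 2 + 64 * t + 21), by ring⟩
  rw [mul_sub, Int.mul_ediv_cancel' h]
  ring

theorem e_sub (n : ℕ) (hn : 1 ≤ n) :
    e n - 2 * ((n / 2 : ℕ) : ℤ) * (((n - 1) / 2 : ℕ) : ℤ) = (s n : ℤ) := by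
  have h1 := three_e n
  have h2 := s_closed n
  rcases Nat.even_or_odd' n with ⟨m, hm | hm⟩
  · have e1 : n / 2 = m := by omega
    have e2 : (n - 1) / 2 = m - 1 := by omega
    rw [e1] at h1 ⊢
    rw [e2]
    have e3 : ((m - 1 : ℕ) : ℤ) = (m : ℤ) - 1 := by omega
    rw [e3]
    have e4 : (-1 : ℤ) ^ n = 1 := by rw [hm, pow_mul]; simp
    rw [e4] at h1
    have e5 : (n : ℤ) = 2 * m := by rw [hm]; push_cast; ring
    rw [e5] at h2
    linarith
  · have e1 : n / 2 = m := by omega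
    have e2 : (n - 1) / 2 = m := by omega
    rw [e1] at h1 ⊢
    rw [e2]
    have e4 : (-1 : ℤ) ^ n = -1 := by rw [hm, pow_succ, pow_mul]; simp
    rw [e4] at h1
    have e5 : (n : ℤ) = 2 * m + 1 := by rw [hm]; push_cast; ring
    rw [e5] at h2
    linarith

/-- `2 (C(k,2) + C(n-k,2))` -/
def E (n k : ℕ) : ℕ := k.choose 2 + (n - k).choose 2

theorem two_choose (k : ℕ) : (2 : ℤ) * (k.choose 2 : ℤ) = (k : ℤ) * ((k : ℤ) - 1) := by
  induction k with
  | zero => simp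
  | succ k ih =>
    rw [Nat.choose_succ_succ' k 1, Nat.choose_one_right]
    push_cast
    linear_combination ih

theorem exp_eq (n k : ℕ) (hn : 1 ≤ n) (hk : k ≤ n) :
    (e n).toNat + c n k = s n + 2 * E n k := by
  have h0 := e_sub n hn
  have h1 : (0 : ℤ) ≤ e n := by
    have : (0 : ℤ) ≤ 2 * ((n / 2 : ℕ) : ℤ) * (((n - 1) / 2 : ℕ) : ℤ) := by positivity
    have h2 : (0 : ℤ) ≤ (s n : ℤ) := by positivity
    linarith
  have hE : (2 * E n k : ℤ) = (k : ℤ) * ((k : ℤ) - 1) + ((n : ℤ) - k) * ((n : ℤ) - k - 1) := by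
    unfold E
    push_cast
    have a1 := two_choose k
    have a2 := two_choose (n - k)
    rw [Nat.cast_sub hk] at a2
    linear_combination a1 + a2
  have hc : (c n k : ℤ) = (((n : ℤ) - 2 * (k : ℤ)) ^ 2) / 2 := by
    unfold c
    apply Int.toNat_of_nonneg
    positivity
  zify
  rw [Int.toNat_of_nonneg h1, hc]
  rcases Nat.even_or_odd' n with ⟨m, hm | hm⟩
  · have e1 : n / 2 = m := by omega
    have e2 : (n - 1) / 2 = m - 1 := by omega
    rw [e1, e2] at h0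
    have e3 : ((m - 1 : ℕ) : ℤ) = (m : ℤ) - 1 := by omega
    rw [e3] at h0
    have e5 : (n : ℤ) = 2 * m := by rw [hm]; push_cast; ring
    have e6 : (((n : ℤ) - 2 * (k : ℤ)) ^ 2) / 2 = 2 * ((m : ℤ) - k) ^ 2 := by
      rw [e5, show (2 * (m : ℤ) - 2 * k) ^ 2 = 2 * (2 * ((m : ℤ) - k) ^ 2) by ring,
        Int.mul_ediv_cancel_left _ (by norm_num)]
    rw [e6]
    rw [e5] at hE
    push_cast
    linear_combination h0 - hE
  · have e1 : n / 2 = m := by omega
    have e2 : (n - 1) / 2 = m := by omega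
    rw [e1, e2] at h0
    have e5 : (n : ℤ) = 2 * m + 1 := by rw [hm]; push_cast; ring
    have e6 : (((n : ℤ) - 2 * (k : ℤ)) ^ 2) / 2 = 2 * ((m : ℤ) - k) ^ 2 + 2 * ((m : ℤ) - k) := by
      rw [e5, show (2 * (m : ℤ) + 1 - 2 * k) ^ 2 = 1 + 2 * (2 * ((m : ℤ) - k) ^ 2 + 2 * ((m : ℤ) - k)) by ring,
        Int.add_mul_ediv_left _ _ (by norm_num)]
      norm_num
    rw [e6]
    rw [e5] at hE
    push_cast
    linear_combination h0 - hE

/-- the diagonal product -/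
theorem A_eq (a q : R) (n : ℕ) : ∏ k ∈ range n, ((1 - q ^ (2 * k + 1)) * Pool.Agent.Q280.QPf.hn a q (2 * k)) =
    a ^ (n * (n - 1)) * q ^ s n * Pn q n := by
  induction n with
  | zero => simp [s, Pn]
  | succ n ih =>
    rw [Finset.prod_range_succ, ih, s_succ]
    have e1 : Pn q (n + 1) = Pn q n * qpoch q (2 * n + 1) := by
      unfold Pn
      rw [← Finset.insert_Icc_right_eq_Icc_add_one (by omega), Finset.prod_insert (by simp)]
      rw [show 2 * (n + 1) - 1 = 2 * n + 1 by omega]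
      ring
    have e2 : qpoch q (2 * n + 1) = qpoch q (2 * n) * (1 - q ^ (2 * n + 1)) := by
      unfold qpoch; rw [Finset.prod_range_succ]
    have e3 : (n + 1) * (n + 1 - 1) = n * (n - 1) + 2 * n := by
      rcases n with _ | n
      · rfl
      · simp only [Nat.add_sub_cancel]; ring
    rw [e1, e2, e3]
    unfold Pool.Agent.Q280.QPf.hn
    rw [← qpoch_eq, pow_add, pow_add, pow_mul (-a) 2 n, neg_sq, ← pow_mul]
    ring

/-- the Rogers-Szegő type factor -/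
def T (a q : R) (n : ℕ) : R := ∑ k ∈ range (n + 1), (q ^ 2) ^ E n k * gauss (q ^ 2) n k * a ^ k

theorem T_rec (a q : R) (n : ℕ) : T a q (n + 2) =
    (1 + a) * q ^ (2 * n + 2) * T a q (n + 1) + a * q ^ (2 * n) * (1 - q ^ (2 * n + 2)) * T a q n := by
  set p := q ^ 2 with hp
  have hq1 : q ^ (2 * n + 2) = p ^ (n + 1) := by rw [hp, ← pow_mul]; congr 1
  have hq2 : q ^ (2 * n) = p ^ n := by rw [hp, ← pow_mul]
  rw [hq1, hq2]
  unfold T
  rw [← hp]
  simp_rw [gauss_eq]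
  have glt := Pool.Agent.Q280.QPf.gauss_lt p
  have g0 := Pool.Agent.Q280.QPf.gauss_zero p
  rw [Finset.sum_range_succ' _ (n + 2)]
  have f1 : ∑ k ∈ range (n + 1 + 1), p ^ E (n + 1) k * Pool.Agent.Q280.QPf.gauss p (n + 1) k * a ^ k =
      ∑ k ∈ range (n + 2), p ^ E (n + 1) (k + 1) * Pool.Agent.Q280.QPf.gauss p (n + 1) (k + 1) * a ^ (k + 1) +
        p ^ E (n + 1) 0 := by
    rw [Finset.sum_range_succ' _ (n + 1), Finset.sum_range_succ _ (n + 1),
      glt (n + 1) (n + 1 + 1) (by omega), g0]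
    simp
  have f2 : a * ∑ k ∈ range (n + 1 + 1), p ^ E (n + 1) k * Pool.Agent.Q280.QPf.gauss p (n + 1) k * a ^ k =
      ∑ k ∈ range (n + 2), p ^ E (n + 1) k * Pool.Agent.Q280.QPf.gauss p (n + 1) k * a ^ (k + 1) := by
    rw [Finset.mul_sum]
    refine Finset.sum_congr rfl fun k _ => by ring
  have f3 : a * p ^ n * (1 - p ^ (n + 1)) * ∑ k ∈ range (n + 1), p ^ E n k * Pool.Agent.Q280.QPf.gauss p n k * a ^ k =
      ∑ k ∈ range (n + 2), p ^ n * p ^ E n k *
        ((1 - p ^ (n + 1 - k)) * Pool.Agent.Q280.QPf.gauss p (n + 1) k) * a ^ (k + 1) := by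
    rw [Finset.sum_range_succ _ (n + 1), Nat.sub_self, pow_zero, sub_self]
    simp only [zero_mul, mul_zero, add_zero]
    rw [Finset.mul_sum]
    refine Finset.sum_congr rfl fun k hk => ?_
    rw [mem_range] at hk
    rw [Pool.Agent.Q280.QPf.gauss_abs p n k (by omega)]; ring
  have f4 : (1 + a) * p ^ (n + 1) *
      ∑ k ∈ range (n + 1 + 1), p ^ E (n + 1) k * Pool.Agent.Q280.QPf.gauss p (n + 1) k * a ^ k =
      p ^ (n + 1) * (∑ k ∈ range (n + 2), p ^ E (n + 1) (k + 1) * Pool.Agent.Q280.QPf.gauss p (n + 1) (k + 1) * a ^ (k + 1) +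
        p ^ E (n + 1) 0) + p ^ (n + 1) *
      ∑ k ∈ range (n + 2), p ^ E (n + 1) k * Pool.Agent.Q280.QPf.gauss p (n + 1) k * a ^ (k + 1) := by
    rw [← f2, ← f1]; ring
  rw [f3, f4, g0]
  have f5 : p ^ E (n + 2) 0 = p ^ (n + 1) * p ^ E (n + 1) 0 := by
    rw [← pow_add]
    congr 1
    unfold E
    rw [show n + 2 - 0 = (n + 1) + 1 by omega, show n + 1 - 0 = n + 1 by omega,
      Nat.choose_succ_succ' (n + 1) 1, Nat.choose_one_right]
    simp
  have f6 : ∀ k ∈ range (n + 2), p ^ E (n + 2) (k + 1) * Pool.Agent.Q280.QPf.gauss p (n + 2) (k + 1) * a ^ (k + 1) =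
      p ^ (n + 1) * (p ^ E (n + 1) (k + 1) * Pool.Agent.Q280.QPf.gauss p (n + 1) (k + 1) * a ^ (k + 1)) +
      p ^ (n + 1) * (p ^ E (n + 1) k * Pool.Agent.Q280.QPf.gauss p (n + 1) k * a ^ (k + 1)) +
      p ^ n * p ^ E n k * ((1 - p ^ (n + 1 - k)) * Pool.Agent.Q280.QPf.gauss p (n + 1) k) * a ^ (k + 1) := by
    intro k hk
    rw [mem_range] at hk
    have c1 : ∀ j : ℕ, (j + 1).choose 2 = j + j.choose 2 := by
      intro j; rw [Nat.choose_succ_succ' j 1, Nat.choose_one_right]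
    obtain ⟨d, hd⟩ : ∃ d, n + 1 = k + d := ⟨n + 1 - k, by omega⟩
    have E1 : E (n + 2) (k + 1) = k + k.choose 2 + d.choose 2 := by
      unfold E; rw [show n + 2 - (k + 1) = d by omega, c1]
    have E3 : n + 1 + E (n + 1) k = E (n + 2) (k + 1) + d := by
      rw [E1]; unfold E; rw [show n + 1 - k = d by omega]; omega
    rw [Pool.Agent.Q280.QPf.gauss]
    have hadj := Pool.Agent.Q280.QPf.gauss_adj p (n + 1) k (by omega)
    rw [show n + 1 - k = d by omega] at hadj ⊢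
    have P3 : p ^ (n + 1) * p ^ E (n + 1) k = p ^ E (n + 2) (k + 1) * p ^ d := by
      rw [← pow_add, ← pow_add, E3]
    rcases d with _ | d
    · have hz : Pool.Agent.Q280.QPf.gauss p (n + 1) (k + 1) = 0 := glt _ _ (by omega)
      rw [hz, pow_zero] at *
      linear_combination (-(Pool.Agent.Q280.QPf.gauss p (n + 1) k) * a ^ (k + 1)) * P3
    · have E2 : n + 1 + E (n + 1) (k + 1) = E (n + 2) (k + 1) + (k + 1) := by
        rw [E1]; unfold E; rw [show n + 1 - (k + 1) = d by omega, c1, c1]; omega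
      have E4 : n + E n k = E (n + 2) (k + 1) := by
        rw [E1]; unfold E; rw [show n - k = d by omega, c1]; omega
      have P2 : p ^ (n + 1) * p ^ E (n + 1) (k + 1) = p ^ E (n + 2) (k + 1) * p ^ (k + 1) := by
        rw [← pow_add, ← pow_add, E2]
      have P4 : p ^ n * p ^ E n k = p ^ E (n + 2) (k + 1) := by rw [← pow_add, E4]
      linear_combination (-(Pool.Agent.Q280.QPf.gauss p (n + 1) k) * a ^ (k + 1)) * P3 +
        (-(Pool.Agent.Q280.QPf.gauss p (n + 1) (k + 1)) * a ^ (k + 1)) * P2 -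
        ((1 - p ^ (d + 1)) * Pool.Agent.Q280.QPf.gauss p (n + 1) k * a ^ (k + 1)) * P4
  rw [Finset.sum_congr rfl f6, Finset.sum_add_distrib, Finset.sum_add_distrib, ← Finset.mul_sum,
    ← Finset.mul_sum, f5]
  ring

theorem Q1_P [Nontrivial R] (a q : R) (n : ℕ) :
    P (fun c d : Fin n × Fin 2 => (q ^ idx c - q ^ idx d) * Pool.Agent.Q280.QPf.g1 a q (idx c + idx d)) =
      2 ^ n * (n.factorial : R) * (a ^ (n * (n - 1)) * q ^ s n * Pn q n) := by
  rw [← Pool.Agent.Q280.QPf.P_monic_q (Pool.Agent.Q280.QPf.g1 a q) q (Pool.Agent.Q280.QPf.U a q)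
    (fun i => (Pool.Agent.Q280.QPf.U_deg a q i).1) (fun i => (Pool.Agent.Q280.QPf.U_deg a q i).2)]
  simp_rw [Pool.Agent.Q280.QPf.gram1]
  rw [P_tri]
  · rw [← A_eq, ← Fin.prod_univ_eq_prod_range
      (fun k : ℕ => (1 - q ^ (2 * k + 1)) * Pool.Agent.Q280.QPf.hn a q (2 * k)) n]
    congr 1
    refine Finset.prod_congr rfl fun k _ => ?_
    simp only [idx, band, Fin.val_zero, Fin.val_one, add_zero, if_true]
  · intro k l
    simp only [idx, band, Fin.val_zero, add_zero]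
    rw [if_neg (by omega), if_neg (by omega)]
    simp
  · intro k l
    simp only [idx, band, Fin.val_one]
    rw [if_neg (by omega), if_neg (by omega)]
    simp
  · intro k l
    rw [band_skew]
  · intro k l hkl
    have hkl' : (k : ℕ) < l := hkl
    simp only [idx, band, Fin.val_zero, Fin.val_one, add_zero]
    rw [if_neg (by omega), if_neg (by omega)]
    simp

theorem Q2_P [Nontrivial R] (a q : R) (n : ℕ) :
    P (fun c d : Fin n × Fin 2 => (q ^ idx c - q ^ idx d) * Pool.Agent.Q280.QPf.g a q (idx c + idx d)) =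
      2 ^ n * (n.factorial : R) * (a ^ (n * (n - 1)) * q ^ s n * Pn q n * T a q n) := by
  rw [← Pool.Agent.Q280.QPf.P_monic_q (Pool.Agent.Q280.QPf.g a q) q (Pool.Agent.Q280.QPf.U a q)
    (fun i => (Pool.Agent.Q280.QPf.U_deg a q i).1) (fun i => (Pool.Agent.Q280.QPf.U_deg a q i).2)]
  simp_rw [Pool.Agent.Q280.QPf.gram2, ← A_eq]
  induction n using Nat.strong_induction_on with
  | _ n ih =>
    rcases n with _ | _ | n
    · rw [P_zero]
      simp [T, E, gauss]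
    · rw [band_one]
      simp [T, E, gauss, Finset.sum_range_succ, Pool.Agent.Q280.QPf.hn, Pool.Agent.Q280.QPf.qpoch]
    · rw [band_rec, ih (n + 1) (by omega), ih n (by omega), T_rec,
        Finset.prod_range_succ _ (n + 1), Finset.prod_range_succ _ n]
      simp only [Nat.factorial_succ]
      have h1 := Pool.Agent.Q280.QPf.hn_succ a q (2 * n)
      rw [show 2 * (n + 1) = 2 * n + 2 by omega, show 2 * n + 1 + 1 = 2 * n + 2 by omega, h1]
      push_cast
      ring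

/-- For all `a`, `q` in a commutative `ℚ`-algebra (for instance the indeterminates of `ℚ[a,q]`) and
all `n ≥ 1` both Pfaffian identities hold; `e(n)` is as in the problem, and `gauss` satisfies the
quotient formula of the Gaussian binomial. -/
theorem result {K : Type*} [CommRing K] [Algebra ℚ K] (a q : K) :
    (∀ m k : ℕ, k ≤ m → gauss q m k * (qpoch q k * qpoch q (m - k)) = qpoch q m) ∧
    ∀ n : ℕ, 1 ≤ n →
      3 * e n = ((n / 2 : ℕ) : ℤ) * (16 * ((n / 2 : ℕ) : ℤ) ^ 2 - 1) -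
        (-1) ^ n * (12 * ((n / 2 : ℕ) : ℤ) ^ 2) ∧
      0 ≤ e n - 2 * ((n / 2 : ℕ) : ℤ) * (((n - 1) / 2 : ℕ) : ℤ) ∧
      pf (mat a q 3 n) =
        a ^ (n * (n - 1)) * q ^ (e n - 2 * ((n / 2 : ℕ) : ℤ) * (((n - 1) / 2 : ℕ) : ℤ)).toNat * Pn q n ∧
      pf (mat a q 2 n) =
        a ^ (n * (n - 1)) * q ^ (e n).toNat * Pn q n *
          ∑ k ∈ range (n + 1), q ^ c n k * gauss (q ^ 2) n k * a ^ k := by
  constructor
  · intro m k hk
    rw [gauss_eq, qpoch_eq, qpoch_eq, qpoch_eq]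
    exact Pool.Agent.Q280.QPf.gauss_quot q m k hk
  · intro n hn
    rcases subsingleton_or_nontrivial K with hs | hnt
    · refine ⟨three_e n, ?_, Subsingleton.elim _ _, Subsingleton.elim _ _⟩
      rw [e_sub n hn]; positivity
    refine ⟨three_e n, ?_, ?_, ?_⟩
    · rw [e_sub n hn]; positivity
    · rw [e_sub n hn, Int.toNat_natCast]
      apply pf_of_P
      rw [sub3]
      exact Q1_P a q n
    · apply pf_of_P
      rw [sub2]
      rw [Q2_P a q n]
      congr 1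
      unfold T
      have h1 : ∀ k ∈ range (n + 1), q ^ (e n).toNat * (q ^ c n k * gauss (q ^ 2) n k * a ^ k) =
          q ^ s n * ((q ^ 2) ^ E n k * gauss (q ^ 2) n k * a ^ k) := by
        intro k hk
        rw [mem_range] at hk
        have h2 : q ^ (e n).toNat * q ^ c n k = q ^ s n * (q ^ 2) ^ E n k := by
          rw [← pow_mul, ← pow_add, ← pow_add, exp_eq n k hn (by omega)]
        linear_combination (gauss (q ^ 2) n k * a ^ k) * h2
      have h3 : q ^ (e n).toNat * ∑ k ∈ range (n + 1), q ^ c n k * gauss (q ^ 2) n k * a ^ k =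
          q ^ s n * ∑ k ∈ range (n + 1), (q ^ 2) ^ E n k * gauss (q ^ 2) n k * a ^ k := by
        rw [Finset.mul_sum, Finset.mul_sum]
        exact Finset.sum_congr rfl h1
      linear_combination (-(a ^ (n * (n - 1)) * Pn q n)) * h3

end Pool.Agent.Results.MP_f5e7e2_co.AlSalamCarlitzPfaffians
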